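import Pool.Agent.StarFin.Global

/-!
# No star-finite covering by closed balls

An infinite-dimensional Banach space whose norm is Fréchet differentiable on a dense set admits no
star-finite covering by closed balls.
-/

namespace StarFin

open Metric Topology Filter

variable {X : Type*} [NormedAddCommGroup X] [NormedSpace ℝ X] {ι : Type*}

/-- the balls of radius at least `1/(n+1)` that are disjoint from `K` -/
def Big (c : ι → X) (r : ι → ℝ) (K : Set X) (n : ℕ) : Set ι :=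
  {i | 1 / ((n : ℝ) + 1) ≤ r i ∧ Disjoint (Bl c r i) K}

/-- Points of a sphere can be approximated by points of the sphere in the directions of which the
norm is differentiable. -/
theorem exists_smooth (hd : Dense {x : X | DifferentiableAt ℝ (fun y : X => ‖y‖) x})
    (b : X) (r₁ : ℝ) (hr₁ : 0 < r₁) (U : Set X) (hU : IsOpen U) (y₁ : X) (hy₁U : y₁ ∈ U)
    (hy₁ : ‖y₁ - b‖ = r₁) :
    ∃ y₀ ∈ U, ‖y₀ - b‖ = r₁ ∧ DifferentiableAt ℝ (fun y : X => ‖y‖) (y₀ - b) := by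
  have hne : y₁ - b ≠ 0 := by
    intro h
    rw [h, norm_zero] at hy₁
    linarith
  have hcont : ContinuousAt (fun x : X => b + (r₁ / ‖x‖) • x) (y₁ - b) := by
    have h1 : ‖y₁ - b‖ ≠ 0 := norm_ne_zero_iff.2 hne
    fun_prop (disch := exact h1)
  have hval : b + (r₁ / ‖y₁ - b‖) • (y₁ - b) = y₁ := by
    rw [hy₁, div_self hr₁.ne', one_smul]; abel
  have hnhds : (fun x : X => b + (r₁ / ‖x‖) • x) ⁻¹' U ∩ {0}ᶜ ∈ 𝓝 (y₁ - b) := by
    refine inter_mem (hcont ?_) (isOpen_compl_singleton.mem_nhds hne)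
    show U ∈ 𝓝 (b + (r₁ / ‖y₁ - b‖) • (y₁ - b))
    rw [hval]
    exact hU.mem_nhds hy₁U
  obtain ⟨x, hx, hxd⟩ := mem_closure_iff_nhds.1 (hd (y₁ - b)) _ hnhds
  have hx0 : x ≠ 0 := hx.2
  have hxn : 0 < ‖x‖ := norm_pos_iff.2 hx0
  refine ⟨b + (r₁ / ‖x‖) • x, hx.1, ?_, ?_⟩
  · rw [add_sub_cancel_left, norm_smul, Real.norm_of_nonneg (by positivity)]
    field_simp
  · rw [add_sub_cancel_left]
    exact (differentiableAt_norm_smul (by positivity)).1 hxd

theorem no_star_finite [CompleteSpace X] (hinf : ¬ FiniteDimensional ℝ X)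
    (hd : Dense {x : X | DifferentiableAt ℝ (fun y : X => ‖y‖) x})
    {c : ι → X} {r : ι → ℝ} (h : SF c r) : False := by
  -- Step 2
  set S := Sing c r with hSdef
  have hSc : IsClosed S := isClosed_sing c r
  have hSne : (Set.univ ∩ S).Nonempty := by
    obtain ⟨i, q, _, _, hq⟩ := h.exists_sing hinf 0
    exact ⟨q, trivial, hq⟩
  obtain ⟨n₀, U₀, hU₀o, -, hU₀S, hU₀⟩ := baire_local S hSc Set.univ isOpen_univ hSne
    (fun n => closure {x | x ∈ S ∧ ∃ i, x ∈ Bl c r i ∧ 1 / ((n : ℝ) + 1) ≤ r i})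
    (fun n => isClosed_closure) (by
      rintro x ⟨-, hxS⟩
      obtain ⟨i, hi⟩ := h.cov x
      obtain ⟨n, hn⟩ := exists_nat_one_div_lt (h.pos i)
      rw [Set.mem_iUnion]
      exact ⟨n, subset_closure ⟨hxS, i, hi, hn.le⟩⟩)
  -- Step 3
  obtain ⟨x₀, hx₀, hmin⟩ := WellFounded.has_min
    (measure (fun x : X => {i | x ∈ Bl c r i}.ncard)).wf (U₀ ∩ S) hU₀S
  set P : Set ι := {i | x₀ ∈ Bl c r i} with hP
  have hPf : P.Finite := h.pf x₀
  set K : Set X := ⋃ i ∈ P, Bl c r i with hK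
  have hKc : IsClosed K := hPf.isClosed_biUnion fun i _ => isClosed_Bl c r i
  have memK : ∀ y, y ∈ K ↔ ∃ i ∈ P, y ∈ Bl c r i := by
    intro y
    simp only [hK, Set.mem_iUnion, exists_prop]
  set N : Set ι := ⋃ i ∈ P, {j | (Bl c r i ∩ Bl c r j).Nonempty} with hN
  have hNf : N.Finite := hPf.biUnion fun i _ => h.star i
  have memN : ∀ j, j ∈ N ↔ ∃ i ∈ P, (Bl c r i ∩ Bl c r j).Nonempty := by
    intro j
    simp only [hN, Set.mem_iUnion, exists_prop]
    rfl
  set M : Set ι := {j | j ∈ N ∧ j ∉ P} with hM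
  have hMf : M.Finite := hNf.subset fun j hj => hj.1
  set U₁ : Set X := U₀ ∩ (⋃ j ∈ M, Bl c r j)ᶜ with hU₁
  have hU₁o : IsOpen U₁ :=
    hU₀o.inter (hMf.isClosed_biUnion fun i _ => isClosed_Bl c r i).isOpen_compl
  have hx₀U₁ : x₀ ∈ U₁ := by
    refine ⟨hx₀.1, ?_⟩
    intro hmem
    simp only [Set.mem_iUnion] at hmem
    obtain ⟨j, hj, hxj⟩ := hmem
    exact hj.2 hxj
  -- (A)
  have propA : ∀ i, ∀ z ∈ U₁, z ∈ Bl c r i → i ∈ P ∨ Disjoint (Bl c r i) K := by
    intro i z hz hzi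
    by_cases hi : i ∈ P
    · exact Or.inl hi
    · right
      rw [Set.disjoint_left]
      intro y hyi hyK
      obtain ⟨j, hjP, hyj⟩ := (memK y).1 hyK
      apply hz.2
      simp only [Set.mem_iUnion]
      exact ⟨i, ⟨(memN i).2 ⟨j, hjP, y, hyj, hyi⟩, hi⟩, hzi⟩
  have propA' : ∀ i, ∀ z ∈ U₁, z ∈ Bl c r i → z ∉ K → Disjoint (Bl c r i) K := by
    intro i z hz hzi hzK
    rcases propA i z hz hzi with h1 | h1
    · exact absurd ((memK z).2 ⟨i, h1, hzi⟩) hzK
    · exact h1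
  -- (B)
  have propB : ∀ y ∈ U₁, y ∈ K → y ∈ closure Kᶜ → y ∈ S := by
    intro y hyU hyK hyc
    refine sing_of_near {i | Disjoint (Bl c r i) K} y ?_ ?_
    · rw [mem_closure_iff_nhds]
      intro V hV
      obtain ⟨z, ⟨hzV, hzU⟩, hzK⟩ := mem_closure_iff_nhds.1 hyc _
        (inter_mem hV (hU₁o.mem_nhds hyU))
      obtain ⟨i, hi⟩ := h.cov z
      refine ⟨z, hzV, ?_⟩
      simp only [Set.mem_iUnion]
      exact ⟨i, propA' i z hzU hi hzK, hi⟩
    · intro i hi hyi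
      exact Set.disjoint_left.1 hi hyi hyK
  -- (C)
  have propC : ∀ y ∈ U₁, y ∈ K → y ∈ closure Kᶜ → ∀ i ∈ P, y ∈ Bl c r i := by
    intro y hyU hyK hyc
    have hyS := propB y hyU hyK hyc
    have hsub : {i | y ∈ Bl c r i} ⊆ P := by
      intro i hi
      rcases propA i y hyU hi with h1 | h1
      · exact h1
      · exact absurd hyK (Set.disjoint_left.1 h1 hi)
    have hcard : P.ncard ≤ {i | y ∈ Bl c r i}.ncard := by
      have := hmin y ⟨hyU.1, hyS⟩
      exact not_lt.1 this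
    have heq := Set.eq_of_subset_of_ncard_le hsub hcard hPf
    intro i hi
    rw [← heq] at hi
    exact hi
  -- (D)
  have propD : x₀ ∈ closure Kᶜ := by
    by_contra hcon
    rw [closure_compl, Set.notMem_compl_iff, mem_interior_iff_mem_nhds] at hcon
    refine (hx₀.2 K hcon).mono ?_ hNf
    rintro i ⟨z, hzi, hzK⟩
    obtain ⟨j, hjP, hzj⟩ := (memK z).1 hzK
    exact (memN i).2 ⟨j, hjP, z, hzj, hzi⟩
  obtain ⟨i₁, hi₁⟩ := h.cov x₀
  have hi₁P : i₁ ∈ P := hi₁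
  set b := c i₁ with hb
  set r₁ := r i₁ with hr₁def
  have hr₁ : 0 < r₁ := h.pos i₁
  have hBl : Bl c r i₁ = closedBall b r₁ := rfl
  have hBK : closedBall b r₁ ⊆ K := fun y hy => (memK y).2 ⟨i₁, hi₁P, hy⟩
  have hx₀b : ‖x₀ - b‖ = r₁ := by
    have h1 : x₀ ∈ closedBall b r₁ := hi₁
    rw [mem_closedBall, dist_eq_norm] at h1
    refine le_antisymm h1 ?_
    by_contra hcon
    push Not at hcon
    have h2 : closedBall b r₁ ∈ 𝓝 x₀ :=
      closedBall_mem_nhds_of_mem (by rw [mem_ball, dist_eq_norm]; exact hcon)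
    have h3 : K ∈ 𝓝 x₀ := mem_of_superset h2 hBK
    rw [closure_compl, Set.mem_compl_iff, mem_interior_iff_mem_nhds] at propD
    exact propD h3
  obtain ⟨e', he', hball'⟩ := Metric.isOpen_iff.1 hU₁o x₀ hx₀U₁
  set e : ℝ := min (e' / 4) r₁ with he
  have he0 : 0 < e := lt_min (by positivity) hr₁
  have her : e ≤ r₁ := min_le_right _ _
  have hball : ball x₀ (4 * e) ⊆ U₁ := by
    refine (ball_subset_ball ?_).trans hball'
    have : e ≤ e' / 4 := min_le_left _ _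
    linarith
  have hball1 : ball x₀ e ⊆ U₁ := (ball_subset_ball (by linarith)).trans hball
  have hloc : ∀ z ∈ ball x₀ e, z ∈ K → z ∈ closedBall b r₁ :=
    local_eq K hKc b r₁ hr₁ hBK x₀ hx₀b propD e he0 her
      (fun y hy hyK hyc => propC y (hball hy) hyK hyc i₁ hi₁P)
  -- (E)
  have propE : ∀ y ∈ ball x₀ e, ‖y - b‖ = r₁ → y ∈ closure Kᶜ := by
    intro y hy hyb
    have h1 : y ∈ closure (closedBall b r₁)ᶜ := by
      have h2 : y ∈ frontier (closedBall b r₁) := by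
        rw [frontier_closedBall b hr₁.ne', mem_sphere, dist_eq_norm]
        exact hyb
      rw [frontier_eq_closure_inter_closure] at h2
      exact h2.2
    rw [mem_closure_iff_nhds]
    intro V hV
    obtain ⟨z, ⟨hzV, hze⟩, hzB⟩ := mem_closure_iff_nhds.1 h1 _
      (inter_mem hV (isOpen_ball.mem_nhds hy))
    exact ⟨z, hzV, fun hzK => hzB (hloc z hze hzK)⟩
  -- (F)
  have propF : ball x₀ e ∩ sphere b r₁ ⊆ ⋃ n, closure (⋃ i ∈ Big c r K n, Bl c r i) := by
    rintro y ⟨hye, hyb⟩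
    rw [mem_sphere, dist_eq_norm] at hyb
    by_contra hcon
    rw [Set.mem_iUnion] at hcon
    push Not at hcon
    have hyK := propE y hye hyb
    have hWo : IsOpen (ball x₀ e ∩ (closure (⋃ i ∈ Big c r K n₀, Bl c r i))ᶜ) :=
      isOpen_ball.inter isClosed_closure.isOpen_compl
    obtain ⟨η', hη', hηW⟩ := Metric.isOpen_iff.1 hWo y ⟨hye, hcon n₀⟩
    set η := η' / 2 with hη
    have hη0 : 0 < η := by positivity
    have hη2 : η' = 2 * η := by rw [hη]; ring
    rw [hη2] at hηW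
    obtain ⟨n', hn'⟩ := exists_nat_one_div_lt (half_pos hη0)
    have hW2 : ball y η ∩ (closure (⋃ i ∈ Big c r K n', Bl c r i))ᶜ ∈ 𝓝 y :=
      inter_mem (ball_mem_nhds y hη0) (isClosed_closure.isOpen_compl.mem_nhds (hcon n'))
    obtain ⟨p, ⟨hpy, hpD⟩, hpK⟩ := mem_closure_iff_nhds.1 hyK _ hW2
    have hpe : p ∈ ball x₀ e := (hηW (ball_subset_ball (by linarith) hpy)).1
    obtain ⟨i, q, hpi, hqi, hqS⟩ := h.exists_sing hinf p
    have hiK : Disjoint (Bl c r i) K := propA' i p (hball1 hpe) hpi hpK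
    have hri : r i < η / 2 := by
      by_contra hcon2
      push Not at hcon2
      apply hpD
      apply subset_closure
      simp only [Set.mem_iUnion]
      exact ⟨i, ⟨hn'.le.trans hcon2, hiK⟩, hpi⟩
    have hqy : q ∈ ball y (2 * η) := by
      have h1 : dist p (c i) ≤ r i := hpi
      have h2 : dist q (c i) ≤ r i := hqi
      have h3 : dist q p ≤ dist q (c i) + dist p (c i) := dist_triangle_right _ _ _
      have h4 : dist q y ≤ dist q p + dist p y := dist_triangle _ _ _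
      rw [mem_ball] at hpy ⊢
      linarith
    have hqe := (hηW hqy).1
    have hqK : q ∉ K := Set.disjoint_left.1 hiK hqi
    have hqcl := hU₀ ⟨(hball1 hqe).1, hqS⟩
    obtain ⟨x', ⟨hx'y, hx'K⟩, hx'S, i', hx'i, hri'⟩ := mem_closure_iff_nhds.1 hqcl
      (ball y (2 * η) ∩ Kᶜ) (inter_mem (isOpen_ball.mem_nhds hqy) (hKc.isOpen_compl.mem_nhds hqK))
    have hx'e := hηW hx'y
    apply hx'e.2
    apply subset_closure
    simp only [Set.mem_iUnion]
    exact ⟨i', ⟨hri', propA' i' x' (hball1 hx'e.1) hx'i hx'K⟩, hx'i⟩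
  -- (G)
  obtain ⟨n₁, U₂, hU₂o, hU₂sub, ⟨y₁, hy₁U, hy₁s⟩, hU₂⟩ := baire_local (sphere b r₁)
    isClosed_sphere (ball x₀ e) isOpen_ball
    ⟨x₀, mem_ball_self he0, by rw [mem_sphere, dist_eq_norm]; exact hx₀b⟩
    (fun n => closure (⋃ i ∈ Big c r K n, Bl c r i)) (fun n => isClosed_closure) propF
  rw [mem_sphere, dist_eq_norm] at hy₁s
  obtain ⟨y₀, hy₀U, hy₀b, hy₀d⟩ := exists_smooth hd b r₁ hr₁ U₂ hU₂o y₁ hy₁U hy₁s
  obtain ⟨κ, hκ, hκU⟩ := Metric.isOpen_iff.1 hU₂o y₀ hy₀U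
  refine local_contra c r h.star b r₁ hr₁ y₀ hy₀b κ hκ (1 / ((n₁ : ℝ) + 1)) (by positivity)
    (Big c r K n₁) (fun i hi => hi.1) ?_ ?_ hy₀d
  · intro i hi
    exact (hi.2.mono_right hBK).symm
  · intro y hy hyb
    exact hU₂ ⟨hκU hy, by rw [mem_sphere, dist_eq_norm]; exact hyb⟩

end StarFin
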