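import Pool.Agent.StarFin.Main

/-!
# From a star-finite covering to the local configuration
-/

namespace StarFin

open Metric Topology Filter

variable {X : Type*} [NormedAddCommGroup X] [NormedSpace ℝ X] {ι : Type*}

/-- star-finite coverings by closed balls of positive radius -/
structure SF (c : ι → X) (r : ι → ℝ) : Prop where
  pos : ∀ i, 0 < r i
  cov : ∀ x, ∃ i, x ∈ Bl c r i
  star : ∀ i, {j | (Bl c r i ∩ Bl c r j).Nonempty}.Finite

/-- singular points: every neighbourhood meets infinitely many balls -/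
def Sing (c : ι → X) (r : ι → ℝ) : Set X :=
  {x | ∀ U ∈ 𝓝 x, {i | (Bl c r i ∩ U).Nonempty}.Infinite}

omit [NormedSpace ℝ X] in
theorem isClosed_sing (c : ι → X) (r : ι → ℝ) : IsClosed (Sing c r) := by
  rw [← isOpen_compl_iff, isOpen_iff_mem_nhds]
  intro x hx
  simp only [Sing, Set.mem_compl_iff, Set.mem_ofPred_eq, not_forall] at hx
  obtain ⟨U, hU, hfin⟩ := hx
  obtain ⟨V, hVU, hVo, hxV⟩ := _root_.mem_nhds_iff.1 hU
  refine mem_of_superset (hVo.mem_nhds hxV) ?_
  intro y hy hys
  refine hfin ?_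
  refine (hys V (hVo.mem_nhds hy)).mono ?_
  intro i hi
  exact hi.mono (Set.inter_subset_inter_right _ hVU)

omit [NormedSpace ℝ X] in
theorem SF.pf {c : ι → X} {r : ι → ℝ} (h : SF c r) (x : X) : {i | x ∈ Bl c r i}.Finite := by
  obtain ⟨i, hi⟩ := h.cov x
  exact (h.star i).subset fun j hj => ⟨x, hi, hj⟩

theorem sing_of_near {c : ι → X} {r : ι → ℝ} (J : Set ι) (x : X)
    (hx : x ∈ closure (⋃ i ∈ J, Bl c r i)) (hx' : ∀ i ∈ J, x ∉ Bl c r i) : x ∈ Sing c r := by
  intro U hU
  exact (infinite_near c r J x hx hx' U hU).mono fun i hi => hi.2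

/-- Lemma A: every point lies in a ball with a singular point. -/
theorem SF.exists_sing {c : ι → X} {r : ι → ℝ} (h : SF c r) (hinf : ¬ FiniteDimensional ℝ X)
    (p : X) : ∃ i, ∃ q, p ∈ Bl c r i ∧ q ∈ Bl c r i ∧ q ∈ Sing c r := by
  classical
  set P : Set ι := {i | p ∈ Bl c r i} with hP
  have hPf : P.Finite := h.pf p
  set N : Set ι := ⋃ i ∈ P, {j | (Bl c r i ∩ Bl c r j).Nonempty} with hN
  have hNf : N.Finite := hPf.biUnion fun i _ => h.star i
  set K : Set X := ⋃ i ∈ P, Bl c r i with hK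
  have hKc : IsClosed K := hPf.isClosed_biUnion fun i _ => isClosed_Bl c r i
  have hKb : Bornology.IsBounded K := by
    rw [hK, Bornology.isBounded_biUnion hPf]
    intro i _
    exact isBounded_closedBall
  have hpK : p ∈ K := by
    obtain ⟨i, hi⟩ := h.cov p
    simp only [hK, Set.mem_iUnion]
    exact ⟨i, hi, hi⟩
  -- functionals
  have hg : ∀ j, ∃ g : X →L[ℝ] ℝ, ‖g‖ ≤ 1 ∧ g (p - c j) = ‖p - c j‖ := by
    intro j
    obtain ⟨g, hg1, hg2⟩ := exists_dual_vector'' ℝ (p - c j)
    exact ⟨g, hg1, by simpa using hg2⟩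
  choose g hg1 hg2 using hg
  obtain ⟨w, hw0, hw⟩ : ∃ w : X, w ≠ 0 ∧ ∀ j ∈ N, g j w = 0 := by
    by_contra hcon
    push Not at hcon
    apply hinf
    have : Fintype N := hNf.fintype
    let L : X →ₗ[ℝ] (N → ℝ) := LinearMap.pi fun j => (g j.1).toLinearMap
    have hL : Function.Injective L := by
      rw [injective_iff_map_eq_zero]
      intro w hw
      by_contra hw0
      obtain ⟨j, hj, hjw⟩ := hcon w hw0
      exact hjw (congrFun hw ⟨j, hj⟩)
    exact FiniteDimensional.of_injective L hL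
  -- the exit time
  set T : Set ℝ := {t | 0 ≤ t ∧ p + t • w ∈ K} with hT
  have hTc : IsClosed T := by
    have : T = Set.Ici 0 ∩ (fun t : ℝ => p + t • w) ⁻¹' K := rfl
    rw [this]
    exact isClosed_Ici.inter (hKc.preimage (by fun_prop))
  obtain ⟨M, hM⟩ := hKb.subset_closedBall p
  have hw0' : 0 < ‖w‖ := norm_pos_iff.2 hw0
  have hTb : T ⊆ Set.Icc 0 (M / ‖w‖) := by
    intro t ht
    refine ⟨ht.1, ?_⟩
    have h1 := hM ht.2
    rw [mem_closedBall, dist_eq_norm, add_sub_cancel_left, norm_smul,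
      Real.norm_of_nonneg ht.1] at h1
    rwa [le_div_iff₀ hw0']
  have hTcomp : IsCompact T := (isCompact_Icc.of_isClosed_subset hTc hTb)
  obtain ⟨t, htT, htmax⟩ := hTcomp.exists_isGreatest ⟨0, le_rfl, by simpa using hpK⟩
  set q := p + t • w with hq
  have hqK : q ∈ K := htT.2
  have hqK' := hqK
  simp only [hK, Set.mem_iUnion] at hqK'
  obtain ⟨i, hiP, hqi⟩ := hqK'
  refine ⟨i, q, hiP, hqi, ?_⟩
  refine sing_of_near Nᶜ q ?_ ?_
  · rw [Metric.mem_closure_iff]
    intro ε hε
    set t' : ℝ := t + ε / (2 * ‖w‖) with ht'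
    have htt' : t < t' := by
      rw [ht']
      have : 0 < ε / (2 * ‖w‖) := by positivity
      linarith
    obtain ⟨j, hj⟩ := h.cov (p + t' • w)
    have hnotK : p + t' • w ∉ K := by
      intro hmem
      exact absurd (htmax ⟨htT.1.trans htt'.le, hmem⟩) (not_le.2 htt')
    have hjP : j ∉ P := by
      intro hjP
      apply hnotK
      simp only [hK, Set.mem_iUnion]
      exact ⟨j, hjP, hj⟩
    have hjN : j ∉ N := by
      intro hjN
      have h1 : r j < ‖p - c j‖ := by
        by_contra hcon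
        push Not at hcon
        apply hjP
        show p ∈ closedBall (c j) (r j)
        rw [mem_closedBall, dist_eq_norm]
        exact hcon
      have h2 : g j (p + t' • w - c j) = ‖p - c j‖ := by
        have : p + t' • w - c j = (p - c j) + t' • w := by abel
        rw [this, map_add, map_smul, hw j hjN, hg2]
        simp
      have h3 : ‖p + t' • w - c j‖ ≤ r j := by
        have : p + t' • w ∈ closedBall (c j) (r j) := hj
        rwa [mem_closedBall, dist_eq_norm] at this
      have h4 := le_of_norm_le_one (hg1 j) (p + t' • w - c j)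
      linarith
    refine ⟨p + t' • w, ?_, ?_⟩
    · simp only [Set.mem_iUnion]
      exact ⟨j, hjN, hj⟩
    · rw [dist_eq_norm, hq]
      have h1 : p + t • w - (p + t' • w) = (t - t') • w := by
        rw [sub_smul]; abel
      rw [h1, norm_smul, ht']
      have h2 : t - (t + ε / (2 * ‖w‖)) = -(ε / (2 * ‖w‖)) := by ring
      rw [h2, norm_neg, Real.norm_of_nonneg (by positivity)]
      have h3 : ε / (2 * ‖w‖) * ‖w‖ = ε / 2 := by field_simp
      rw [h3]
      linarith
  · intro j hj hqj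
    apply hj
    simp only [hN, Set.mem_iUnion]
    exact ⟨i, hiP, q, hqi, hqj⟩

/-- A local Baire category statement on closed subsets of complete metric spaces. -/
theorem baire_local {Y : Type*} [MetricSpace Y] [CompleteSpace Y] (S : Set Y) (hS : IsClosed S)
    (V : Set Y) (hV : IsOpen V) (hVS : (V ∩ S).Nonempty) (F : ℕ → Set Y)
    (hF : ∀ n, IsClosed (F n)) (hcov : V ∩ S ⊆ ⋃ n, F n) :
    ∃ n, ∃ U, IsOpen U ∧ U ⊆ V ∧ (U ∩ S).Nonempty ∧ U ∩ S ⊆ F n := by
  have : CompleteSpace S := hS.completeSpace_coe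
  set G : ℕ → Set S := fun n => (Subtype.val : S → Y) ⁻¹' (F n ∪ Vᶜ) with hG
  have hGc : ∀ n, IsClosed (G n) := fun n =>
    ((hF n).union hV.isClosed_compl).preimage continuous_subtype_val
  have hGu : ⋃ n, G n = Set.univ := by
    rw [Set.eq_univ_iff_forall]
    intro x
    by_cases hx : (x : Y) ∈ V
    · have h1 := hcov ⟨hx, x.2⟩
      rw [Set.mem_iUnion] at h1 ⊢
      obtain ⟨n, hn⟩ := h1
      exact ⟨n, Or.inl hn⟩
    · rw [Set.mem_iUnion]
      exact ⟨0, Or.inr hx⟩
  have hd := dense_iUnion_interior_of_closed hGc hGu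
  obtain ⟨x₀, hx₀V, hx₀S⟩ := hVS
  have hVo : IsOpen ((Subtype.val : S → Y) ⁻¹' V) := hV.preimage continuous_subtype_val
  obtain ⟨x, hxV, hxG⟩ := hd.inter_open_nonempty _ hVo ⟨⟨x₀, hx₀S⟩, hx₀V⟩
  rw [Set.mem_iUnion] at hxG
  obtain ⟨n, hn⟩ := hxG
  obtain ⟨U, hUo, hU⟩ := isOpen_induced_iff.1 (isOpen_interior (s := G n))
  refine ⟨n, U ∩ V, hUo.inter hV, Set.inter_subset_right, ⟨x, ⟨?_, hxV⟩, x.2⟩, ?_⟩
  · have : x ∈ (Subtype.val : S → Y) ⁻¹' U := by rw [hU]; exact hn
    exact this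
  · rintro y ⟨⟨hyU, hyV⟩, hyS⟩
    have h1 : (⟨y, hyS⟩ : S) ∈ (Subtype.val : S → Y) ⁻¹' U := hyU
    rw [hU] at h1
    have h2 := interior_subset h1
    rcases h2 with h2 | h2
    · exact h2
    · exact absurd hyV h2

theorem exists_crossing {Y : Type*} [TopologicalSpace Y] (T K : Set Y) (hT : IsPreconnected T)
    (hK : IsClosed K) (h1 : (T ∩ K).Nonempty) (h2 : (T ∩ Kᶜ).Nonempty) :
    ∃ y ∈ T, y ∈ K ∧ y ∈ closure Kᶜ := by
  rw [isPreconnected_closed_iff] at hT
  obtain ⟨y, hyT, hyK, hyc⟩ := hT K (closure Kᶜ) hK isClosed_closure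
    (fun y _ => by
      by_cases hy : y ∈ K
      · exact Or.inl hy
      · exact Or.inr (subset_closure hy)) h1
    (h2.mono (Set.inter_subset_inter_right _ subset_closure))
  exact ⟨y, hyT, hyK, hyc⟩

/-- Going outwards from a point outside the ball one stays outside. -/
theorem up_notMem (b x₀ z : X) (r₁ : ℝ) (hr₁ : 0 < r₁)
    (hz : ‖z - x₀‖ ≤ r₁) (hzB : z ∉ closedBall b r₁) (t : ℝ) (ht : 0 ≤ t) :
    z + (t / r₁) • (x₀ - b) ∉ closedBall b r₁ := by
  intro hmem
  apply hzB
  have h1 : z - (x₀ - b) ∈ closedBall b r₁ := by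
    rw [mem_closedBall, dist_eq_norm]
    have : z - (x₀ - b) - b = z - x₀ := by abel
    rw [this]
    exact hz
  have hrt : 0 < r₁ + t := by linarith
  have h2 : (t / (r₁ + t)) • (z - (x₀ - b)) + (r₁ / (r₁ + t)) • (z + (t / r₁) • (x₀ - b))
      ∈ closedBall b r₁ :=
    (convex_closedBall b r₁) h1 hmem (by positivity) (by positivity) (by field_simp; ring)
  have h3 : (t / (r₁ + t)) • (z - (x₀ - b)) + (r₁ / (r₁ + t)) • (z + (t / r₁) • (x₀ - b)) = z := by
    rw [smul_sub, smul_add, smul_smul]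
    have e1 : r₁ / (r₁ + t) * (t / r₁) = t / (r₁ + t) := by field_simp
    rw [e1]
    have e2 : (t / (r₁ + t)) • z - (t / (r₁ + t)) • (x₀ - b) +
        ((r₁ / (r₁ + t)) • z + (t / (r₁ + t)) • (x₀ - b)) =
        (t / (r₁ + t)) • z + (r₁ / (r₁ + t)) • z := by abel
    rw [e2, ← add_smul]
    have e3 : t / (r₁ + t) + r₁ / (r₁ + t) = 1 := by field_simp; ring
    rw [e3, one_smul]
  rwa [h3] at h2

/-- Locally, near a boundary point with the right properties, a closed set `K` containing the ball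
`B(b, r₁)` coincides with this ball. -/
theorem local_eq (K : Set X) (hK : IsClosed K) (b : X) (r₁ : ℝ) (hr₁ : 0 < r₁)
    (hBK : closedBall b r₁ ⊆ K)
    (x₀ : X) (hx₀ : ‖x₀ - b‖ = r₁) (hx₀K : x₀ ∈ closure Kᶜ)
    (e : ℝ) (he : 0 < e) (her : e ≤ r₁)
    (hfr : ∀ y ∈ ball x₀ (4 * e), y ∈ K → y ∈ closure Kᶜ → y ∈ closedBall b r₁) :
    ∀ z ∈ ball x₀ e, z ∈ K → z ∈ closedBall b r₁ := by
  intro z hz hzK
  by_contra hzB
  obtain ⟨q, hqe, hqK⟩ := mem_closure_iff_nhds.1 hx₀K _ (ball_mem_nhds x₀ he)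
  have hqB : q ∉ closedBall b r₁ := fun h => hqK (hBK h)
  obtain ⟨g, hg1, hg2⟩ := exists_dual_vector'' ℝ (x₀ - b)
  simp only [RCLike.ofReal_real_eq_id, id_eq] at hg2
  rw [hx₀] at hg2
  have hze : ‖z - x₀‖ < e := by rwa [mem_ball, dist_eq_norm] at hz
  have hqe' : ‖q - x₀‖ < e := by rwa [mem_ball, dist_eq_norm] at hqe
  set d : X := (2 * e / r₁) • (x₀ - b) with hd
  have hdn : ‖d‖ = 2 * e := by
    rw [hd, norm_smul, hx₀, Real.norm_of_nonneg (by positivity)]
    field_simp
  have hgd : g d = 2 * e := by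
    rw [hd, map_smul, hg2, smul_eq_mul]
    field_simp
  -- the path
  set T : Set X := (segment ℝ z (z + d) ∪ segment ℝ (z + d) (q + d)) ∪ segment ℝ (q + d) q with hT
  have hTpre : IsPreconnected T := by
    refine IsPreconnected.union (q + d) ?_ (left_mem_segment _ _ _) ?_
      (convex_segment _ _).isPreconnected
    · exact Or.inr (right_mem_segment _ _ _)
    · exact IsPreconnected.union (z + d) (right_mem_segment _ _ _) (left_mem_segment _ _ _)
        (convex_segment _ _).isPreconnected (convex_segment _ _).isPreconnected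
  have hup : ∀ w : X, ‖w - x₀‖ < e → w ∉ closedBall b r₁ → ∀ y ∈ segment ℝ w (w + d),
      y ∉ closedBall b r₁ := by
    intro w hw hwB y hy
    rw [segment_eq_image'] at hy
    obtain ⟨θ, ⟨hθ0, hθ1⟩, rfl⟩ := hy
    have h1 := up_notMem b x₀ w r₁ hr₁ (by linarith) hwB (θ * (2 * e)) (by positivity)
    have h2 : w + θ • (w + d - w) = w + (θ * (2 * e) / r₁) • (x₀ - b) := by
      rw [add_sub_cancel_left, hd, smul_smul, ← mul_div_assoc]
    show w + θ • (w + d - w) ∉ closedBall b r₁
    rw [h2]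
    exact h1
  have hTB : ∀ y ∈ T, y ∉ closedBall b r₁ := by
    rintro y ((hy | hy) | hy)
    · exact hup z hze hzB y hy
    · intro hyB
      have hconv : Convex ℝ {y : X | r₁ < g (y - b)} := by
        have : {y : X | r₁ < g (y - b)} = {y : X | r₁ + g b < g y} := by
          ext y
          simp only [Set.mem_ofPred_eq, map_sub]
          constructor <;> intro h <;> linarith
        rw [this]
        exact convex_halfSpace_gt g.toLinearMap.isLinear _
      have hend : ∀ w : X, ‖w - x₀‖ < e → w + d ∈ {y : X | r₁ < g (y - b)} := by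
        intro w hw
        have h1 : w + d - b = (w - x₀) + d + (x₀ - b) := by abel
        show r₁ < g (w + d - b)
        rw [h1, map_add, map_add, hgd, hg2]
        have := (abs_le.1 (abs_le_of_norm_le_one hg1 (w - x₀))).1
        linarith
      have h1 := hconv.segment_subset (hend z hze) (hend q hqe') hy
      have h2 : g (y - b) ≤ ‖y - b‖ := le_of_norm_le_one hg1 _
      rw [mem_closedBall, dist_eq_norm] at hyB
      have h3 : r₁ < g (y - b) := h1
      linarith
    · rw [segment_symm] at hy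
      exact hup q hqe' hqB y hy
  have hTball : T ⊆ ball x₀ (4 * e) := by
    have hz1 : z ∈ ball x₀ (4 * e) := by rw [mem_ball, dist_eq_norm]; linarith
    have hq1 : q ∈ ball x₀ (4 * e) := by rw [mem_ball, dist_eq_norm]; linarith
    have hadd : ∀ w : X, ‖w - x₀‖ < e → w + d ∈ ball x₀ (4 * e) := by
      intro w hw
      rw [mem_ball, dist_eq_norm]
      have h1 : w + d - x₀ = (w - x₀) + d := by abel
      rw [h1]
      refine lt_of_le_of_lt (norm_add_le _ _) ?_
      rw [hdn]; linarith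
    have hc := convex_ball x₀ (4 * e)
    refine Set.union_subset (Set.union_subset ?_ ?_) ?_
    · exact hc.segment_subset hz1 (hadd z hze)
    · exact hc.segment_subset (hadd z hze) (hadd q hqe')
    · exact hc.segment_subset (hadd q hqe') hq1
  obtain ⟨y, hyT, hyK, hyc⟩ := exists_crossing T K hTpre hK
    ⟨z, Or.inl (Or.inl (left_mem_segment _ _ _)), hzK⟩
    ⟨q, Or.inr (right_mem_segment _ _ _), hqK⟩
  exact hTB y hyT (hfr y (hTball hyT) hyK hyc)

end StarFin
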