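import Mathlib

/-!
# The local contradiction

`Bl c r i` is the closed ball of index `i`.  If a closed ball `B(b, r₁)` has, near one of its
boundary points `y₀`, all of its boundary points in the closure of the union of those members of a
star-finite family of closed balls which have radius `≥ ρ` and are disjoint from `B(b, r₁)`, then
the norm is not Fréchet differentiable at `y₀ - b`.
-/

namespace StarFin

open Metric Topology Filter

variable {X : Type*} [NormedAddCommGroup X] [NormedSpace ℝ X] {ι : Type*}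

/-- the closed ball of index `i` -/
def Bl (c : ι → X) (r : ι → ℝ) (i : ι) : Set X := closedBall (c i) (r i)

omit [NormedSpace ℝ X] in
theorem isClosed_Bl (c : ι → X) (r : ι → ℝ) (i : ι) : IsClosed (Bl c r i) := isClosed_closedBall

/-- If `x` is in the closure of the union of the balls with index in `J` but in none of these
balls, then infinitely many of them come close to `x`. -/
theorem infinite_near (c : ι → X) (r : ι → ℝ) (J : Set ι) (x : X)
    (hx : x ∈ closure (⋃ i ∈ J, Bl c r i)) (hx' : ∀ i ∈ J, x ∉ Bl c r i) (U : Set X)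
    (hU : U ∈ 𝓝 x) : {i | i ∈ J ∧ (Bl c r i ∩ U).Nonempty}.Infinite := by
  intro hfin
  have hclosed : IsClosed (⋃ i ∈ {i | i ∈ J ∧ (Bl c r i ∩ U).Nonempty}, Bl c r i) :=
    hfin.isClosed_biUnion fun i _ => isClosed_Bl c r i
  have hxn : x ∉ ⋃ i ∈ {i | i ∈ J ∧ (Bl c r i ∩ U).Nonempty}, Bl c r i := by
    intro h
    simp only [Set.mem_iUnion] at h
    obtain ⟨i, hi, hxi⟩ := h
    exact hx' i hi.1 hxi
  have hV : U ∩ (⋃ i ∈ {i | i ∈ J ∧ (Bl c r i ∩ U).Nonempty}, Bl c r i)ᶜ ∈ 𝓝 x :=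
    inter_mem hU (hclosed.isOpen_compl.mem_nhds hxn)
  obtain ⟨z, hz1, hz2⟩ := mem_closure_iff_nhds.1 hx _ hV
  simp only [Set.mem_iUnion] at hz2
  obtain ⟨i, hi, hzi⟩ := hz2
  apply hz1.2
  simp only [Set.mem_iUnion]
  exact ⟨i, ⟨hi, z, hzi, hz1.1⟩, hzi⟩

/-- Šmulyan's lemma: functionals of norm at most one that almost norm `x` are close to the Fréchet
derivative of the norm at `x`. -/
theorem smulyan {x : X} (hd : DifferentiableAt ℝ (fun y : X => ‖y‖) x) (θ : ℝ) (hθ : 0 < θ) :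
    ∃ τ : ℝ, 0 < τ ∧ ∀ h : X →L[ℝ] ℝ, ‖h‖ ≤ 1 → ‖x‖ - τ ≤ h x →
      ‖h - fderiv ℝ (fun y : X => ‖y‖) x‖ ≤ θ := by
  set f := fderiv ℝ (fun y : X => ‖y‖) x with hf
  have h1 := hd.hasFDerivAt.isLittleO
  rw [Asymptotics.isLittleO_iff] at h1
  have h2 := h1 (half_pos hθ)
  rw [Metric.eventually_nhds_iff] at h2
  obtain ⟨t, ht, h3⟩ := h2
  have ht2 : 0 < t / 2 := by positivity
  refine ⟨θ / 2 * (t / 2), by positivity, ?_⟩
  intro h hh hx
  refine ContinuousLinearMap.opNorm_le_bound _ hθ.le ?_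
  -- first for small vectors
  have key : ∀ v : X, ‖v‖ = t / 2 → (h - f) v ≤ θ * ‖v‖ := by
    intro v hv
    have h4 : dist (x + v) x < t := by
      rw [dist_eq_norm, add_sub_cancel_left, hv]; linarith
    have h5 := h3 h4
    simp only [add_sub_cancel_left, Real.norm_eq_abs] at h5
    have h6 := (abs_le.1 h5).2
    have h7 : h (x + v) ≤ ‖x + v‖ := by
      calc h (x + v) ≤ ‖h (x + v)‖ := le_abs_self _
        _ ≤ ‖h‖ * ‖x + v‖ := h.le_opNorm _
        _ ≤ 1 * ‖x + v‖ := by gcongr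
        _ = ‖x + v‖ := one_mul _
    rw [map_add] at h7
    rw [sub_apply]
    rw [hv] at h6 ⊢
    linarith
  intro v
  by_cases hv : v = 0
  · simp [hv]
  have hv0 : 0 < ‖v‖ := norm_pos_iff.2 hv
  have hs : 0 < t / 2 / ‖v‖ := by positivity
  have hnorm : ‖(t / 2 / ‖v‖) • v‖ = t / 2 := by
    rw [norm_smul, Real.norm_of_nonneg hs.le]
    field_simp
  have k1 := key _ hnorm
  have k2 := key (-((t / 2 / ‖v‖) • v)) (by rw [norm_neg]; exact hnorm)
  rw [map_neg, norm_neg] at k2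
  rw [hnorm, map_smul, smul_eq_mul] at k1 k2
  rw [Real.norm_eq_abs, abs_le]
  have e1 : θ * (t / 2) = (t / 2 / ‖v‖) * (θ * ‖v‖) := by field_simp
  rw [e1] at k1 k2
  constructor
  · have : (t / 2 / ‖v‖) * (-(h - f) v) ≤ (t / 2 / ‖v‖) * (θ * ‖v‖) := by linarith
    have := le_of_mul_le_mul_left this hs
    linarith
  · exact le_of_mul_le_mul_left k1 hs

theorem fderiv_norm_le {x : X} (hd : DifferentiableAt ℝ (fun y : X => ‖y‖) x) :
    ‖fderiv ℝ (fun y : X => ‖y‖) x‖ ≤ 1 := by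
  have := norm_fderiv_le_of_lipschitz ℝ (f := fun y : X => ‖y‖) (x₀ := x) (C := 1)
    lipschitzWith_one_norm
  simpa using this

theorem le_of_norm_le_one {h : X →L[ℝ] ℝ} (hh : ‖h‖ ≤ 1) (v : X) : h v ≤ ‖v‖ := by
  calc h v ≤ ‖h v‖ := le_abs_self _
    _ ≤ ‖h‖ * ‖v‖ := h.le_opNorm _
    _ ≤ 1 * ‖v‖ := by gcongr
    _ = ‖v‖ := one_mul _

theorem abs_le_of_norm_le_one {h : X →L[ℝ] ℝ} (hh : ‖h‖ ≤ 1) (v : X) : |h v| ≤ ‖v‖ := by
  calc |h v| = ‖h v‖ := rfl
    _ ≤ ‖h‖ * ‖v‖ := h.le_opNorm _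
    _ ≤ 1 * ‖v‖ := by gcongr
    _ = ‖v‖ := one_mul _

theorem le_of_norm_le {h : X →L[ℝ] ℝ} {C : ℝ} (hh : ‖h‖ ≤ C) (v : X) : h v ≤ C * ‖v‖ := by
  calc h v ≤ ‖h v‖ := le_abs_self _
    _ ≤ ‖h‖ * ‖v‖ := h.le_opNorm _
    _ ≤ C * ‖v‖ := by gcongr

set_option maxHeartbeats 4000000 in
theorem local_contra (c : ι → X) (r : ι → ℝ)
    (hstar : ∀ i, {j | (Bl c r i ∩ Bl c r j).Nonempty}.Finite)
    (b : X) (r₁ : ℝ) (hr₁ : 0 < r₁) (y₀ : X) (hy₀ : ‖y₀ - b‖ = r₁) (κ : ℝ) (hκ : 0 < κ)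
    (ρ : ℝ) (hρ : 0 < ρ) (J : Set ι) (hJρ : ∀ i ∈ J, ρ ≤ r i)
    (hJd : ∀ i ∈ J, Disjoint (closedBall b r₁) (Bl c r i))
    (hcl : ∀ y ∈ ball y₀ κ, ‖y - b‖ = r₁ → y ∈ closure (⋃ i ∈ J, Bl c r i))
    (hd : DifferentiableAt ℝ (fun y : X => ‖y‖) (y₀ - b)) : False := by
  set x := y₀ - b with hx
  set f := fderiv ℝ (fun y : X => ‖y‖) x with hf
  have hf1 : ‖f‖ ≤ 1 := fderiv_norm_le hd
  have hfx : f x = r₁ := by
    have := hd.fderiv_norm_self
    rw [← hf] at this
    rw [this, hy₀]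
  -- Šmulyan
  obtain ⟨τ₁, hτ₁, hS⟩ := smulyan hd (1 / 2) (by norm_num)
  set τ : ℝ := min (τ₁ / r₁) (1 / 2) with hτ
  have hτ0 : 0 < τ := lt_min (by positivity) (by norm_num)
  have hτ2 : τ ≤ 1 / 2 := min_le_right _ _
  have hτr : τ * r₁ ≤ τ₁ := by
    have : τ ≤ τ₁ / r₁ := min_le_left _ _
    rwa [le_div_iff₀ hr₁] at this
  have hS' : ∀ h : X →L[ℝ] ℝ, ‖h‖ ≤ 1 → r₁ - τ * r₁ ≤ h x → ‖h - f‖ ≤ 1 / 2 := by
    intro h hh hhx
    refine hS h hh ?_
    rw [hy₀]; linarith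
  -- differentiability
  obtain ⟨t₀, ht₀, hD⟩ : ∃ t₀ : ℝ, 0 < t₀ ∧ ∀ v : X, ‖v‖ < t₀ →
      ‖x + v‖ ≤ r₁ + f v + τ / 32 * ‖v‖ := by
    have h1 := hd.hasFDerivAt.isLittleO
    rw [Asymptotics.isLittleO_iff] at h1
    have h2 := h1 (show 0 < τ / 32 by positivity)
    rw [Metric.eventually_nhds_iff] at h2
    obtain ⟨t, ht, h3⟩ := h2
    refine ⟨t, ht, ?_⟩
    intro v hv
    have h4 : dist (x + v) x < t := by
      rw [dist_eq_norm, add_sub_cancel_left]; exact hv
    have h5 := h3 h4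
    simp only [add_sub_cancel_left, Real.norm_eq_abs] at h5
    have h6 := (abs_le.1 h5).2
    rw [hy₀] at h6
    linarith
  -- constants
  set s : ℝ := min (min (t₀ / 4) (κ / 8)) (min (τ * ρ / 24) (τ * r₁ / 8)) with hs
  have hs0 : 0 < s := by
    refine lt_min (lt_min ?_ ?_) (lt_min ?_ ?_) <;> positivity
  have hst : s ≤ t₀ / 4 := (min_le_left _ _).trans (min_le_left _ _)
  have hsκ : s ≤ κ / 8 := (min_le_left _ _).trans (min_le_right _ _)
  have hsρ : s ≤ τ * ρ / 24 := (min_le_right _ _).trans (min_le_left _ _)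
  have hsr : s ≤ τ * r₁ / 8 := (min_le_right _ _).trans (min_le_right _ _)
  set ε : ℝ := τ * s / 8 with hε
  have hε0 : 0 < ε := by positivity
  have hεs : ε ≤ s / 16 := by rw [hε]; nlinarith
  -- the ball `A`
  obtain ⟨z, hzA, hzy⟩ := Metric.mem_closure_iff.1
    (hcl y₀ (mem_ball_self hκ) hy₀) ε hε0
  simp only [Set.mem_iUnion] at hzA
  obtain ⟨i, hiJ, hzi⟩ := hzA
  set a := c i with ha
  set R := r i with hR
  have hRρ : ρ ≤ R := hJρ i hiJ
  have hR0 : 0 < R := lt_of_lt_of_le hρ hRρ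
  have haz : ‖z - a‖ ≤ R := by
    have : z ∈ closedBall (c i) (r i) := hzi
    rwa [mem_closedBall, dist_eq_norm] at this
  have hay : ‖a - y₀‖ < R + ε := by
    have h1 : a - y₀ = -(z - a) - (y₀ - z) := by abel
    rw [h1]
    refine lt_of_le_of_lt (norm_sub_le _ _) ?_
    rw [norm_neg]
    rw [dist_eq_norm] at hzy
    linarith
  have hab : R + r₁ < ‖a - b‖ := by
    have h1 := hJd i hiJ
    have h2 := (disjoint_closedBall_closedBall_iff hr₁.le hR0.le).1
      (show Disjoint (closedBall b r₁) (closedBall a R) from h1)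
    rw [dist_eq_norm, norm_sub_rev] at h2
    linarith
  -- `f (a - y₀)` is positive
  have hfa : 0 < f (a - y₀) := by
    obtain ⟨g, hg1, hg2⟩ := exists_dual_vector'' ℝ (a - b)
    simp only [RCLike.ofReal_real_eq_id, id_eq] at hg2
    have h1 : g (a - b) = g (a - y₀) + g x := by
      rw [hx, ← map_add]; congr 1; abel
    have h2 : g x ≤ r₁ := by rw [← hy₀]; exact le_of_norm_le_one hg1 _
    have h3 : g (a - y₀) ≤ ‖a - y₀‖ := le_of_norm_le_one hg1 _
    have h4 : ‖g - f‖ ≤ 1 / 2 := hS' g hg1 (by nlinarith)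
    have h5 : (g - f) (a - y₀) ≤ 1 / 2 * ‖a - y₀‖ := le_of_norm_le h4 _
    rw [sub_apply] at h5
    have h6 : ε < R := by nlinarith
    linarith
  -- the direction `v`, multiplied by `R`
  set α : ℝ := f (a - y₀) / R with hα
  have hα0 : 0 < α := by positivity
  have hα1 : α ≤ 1 + ε / R := by
    rw [hα, div_le_iff₀ hR0]
    have : f (a - y₀) ≤ ‖a - y₀‖ := le_of_norm_le_one hf1 _
    have h2 : (1 + ε / R) * R = R + ε := by field_simp
    rw [h2]; linarith
  have hεR : ε / R ≤ 1 / 16 := by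
    rw [div_le_iff₀ hR0]
    nlinarith
  set v : X := (1 / R) • (a - y₀) - (α / r₁) • x with hv
  have hfv : f v = 0 := by
    rw [hv, map_sub, map_smul, map_smul, hfx, smul_eq_mul, smul_eq_mul, hα]
    field_simp
    ring
  have hvn : ‖v‖ ≤ 3 := by
    have h1 : ‖(1 / R) • (a - y₀)‖ ≤ 1 + ε / R := by
      rw [norm_smul, Real.norm_of_nonneg (by positivity)]
      have h2 : (1 + ε / R) = (1 / R) * (R + ε) := by field_simp
      rw [h2]
      gcongr
    have h3 : ‖(α / r₁) • x‖ = α := by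
      rw [norm_smul, hy₀, Real.norm_of_nonneg (by positivity)]
      field_simp
    calc ‖v‖ ≤ ‖(1 / R) • (a - y₀)‖ + ‖(α / r₁) • x‖ := norm_sub_le _ _
      _ ≤ 3 := by rw [h3]; linarith
  -- the point `y'`
  set N : ℝ := ‖x + s • v‖ with hN
  have hsv : ‖s • v‖ ≤ 3 * s := by
    rw [norm_smul, Real.norm_of_nonneg hs0.le]
    nlinarith
  have hN1 : r₁ ≤ N := by
    have h1 : f (x + s • v) = r₁ := by
      rw [map_add, map_smul, hfv, hfx]; simp
    rw [← h1]
    exact le_of_norm_le_one hf1 _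
  have hN2 : N ≤ r₁ + τ / 32 * (3 * s) := by
    have h1 := hD (s • v) (by nlinarith)
    rw [map_smul, hfv, smul_zero, add_zero] at h1
    have : τ / 32 * ‖s • v‖ ≤ τ / 32 * (3 * s) := by gcongr
    linarith
  have hN0 : 0 < N := lt_of_lt_of_le hr₁ hN1
  set y' : X := b + (r₁ / N) • (x + s • v) with hy'
  have hy'b : ‖y' - b‖ = r₁ := by
    have : y' - b = (r₁ / N) • (x + s • v) := by rw [hy']; abel
    rw [this, norm_smul, Real.norm_of_nonneg (by positivity), ← hN]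
    field_simp
  -- error term
  set e : X := y' - y₀ - s • v with he
  have hee : ‖e‖ ≤ τ / 32 * (3 * s) := by
    have h1 : e = (r₁ / N - 1) • (x + s • v) := by
      rw [he, hy', hx, sub_smul, one_smul]; abel
    rw [h1, norm_smul, ← hN, Real.norm_eq_abs]
    have h2 : |r₁ / N - 1| = 1 - r₁ / N := by
      rw [abs_sub_comm, abs_of_nonneg]
      rw [sub_nonneg, div_le_one hN0]
      exact hN1
    rw [h2]
    have h3 : (1 - r₁ / N) * N = N - r₁ := by field_simp
    rw [h3]; linarith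
  have hy'e : y' - y₀ = s • v + e := by rw [he]; abel
  have hy'n : ‖y' - y₀‖ ≤ 4 * s := by
    rw [hy'e]
    refine (norm_add_le _ _).trans ?_
    nlinarith
  have hy'U : y' ∈ ball y₀ κ := by
    rw [mem_ball, dist_eq_norm]
    linarith
  -- the property (★)
  have star : ∀ h : X →L[ℝ] ℝ, ‖h‖ ≤ 1 → R - ε / 2 ≤ h (a - y') → ‖h - f‖ ≤ 1 / 2 := by
    intro h hh hha
    by_contra hcon
    have hhx : h x < r₁ - τ * r₁ := by
      by_contra h1
      push Not at h1
      exact hcon (hS' h hh h1)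
    have h1 : h (a - y₀) = h (a - y') + h (y' - y₀) := by rw [← map_add]; congr 1; abel
    have h2 : |h (y' - y₀)| ≤ 4 * s := (abs_le_of_norm_le_one hh _).trans hy'n
    have h3 : R - ε / 2 - 4 * s ≤ h (a - y₀) := by
      have := (abs_le.1 h2).1
      linarith
    have h4 : h v = h (a - y₀) / R - α * (h x / r₁) := by
      rw [hv, map_sub, map_smul, map_smul, smul_eq_mul, smul_eq_mul]
      ring
    have h5 : 1 - (ε / 2 + 4 * s) / R ≤ h (a - y₀) / R := by
      have : 1 - (ε / 2 + 4 * s) / R = (R - ε / 2 - 4 * s) / R := by field_simp; ring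
      rw [this]
      gcongr
    have h6 : h x / r₁ ≤ 1 - τ := by
      rw [div_le_iff₀ hr₁]; linarith
    have h7 : α * (h x / r₁) ≤ (1 + ε / R) * (1 - τ) := by
      calc α * (h x / r₁) ≤ α * (1 - τ) := by gcongr
        _ ≤ (1 + ε / R) * (1 - τ) := by
          have : 0 ≤ 1 - τ := by linarith
          gcongr
    have h8 : (ε / 2 + 4 * s) / R ≤ τ * (5 / 24) := by
      rw [div_le_iff₀ hR0]
      nlinarith
    have h9 : ε / R ≤ τ / 24 := by
      rw [div_le_iff₀ hR0]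
      nlinarith
    have h10 : τ / 2 ≤ h v := by
      rw [h4]
      have : 0 ≤ ε / R := by positivity
      nlinarith
    have h11 : h (y' - y₀) = s * h v + h e := by
      rw [hy'e, map_add, map_smul, smul_eq_mul]
    have h12 : -‖e‖ ≤ h e := (abs_le.1 (abs_le_of_norm_le_one hh e)).1
    have h13 : h (a - y₀) ≤ ‖a - y₀‖ := le_of_norm_le_one hh _
    nlinarith
  -- the second ball
  have hcl' := hcl y' hy'U hy'b
  have hy'J : ∀ j ∈ J, y' ∉ Bl c r j := by
    intro j hj hyj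
    have h1 := Set.disjoint_left.1 (hJd j hj)
    refine h1 ?_ hyj
    rw [mem_closedBall, dist_eq_norm, hy'b]
  have hinf := infinite_near c r J y' hcl' hy'J (ball y' (ε / 2))
    (ball_mem_nhds _ (by positivity))
  obtain ⟨j, ⟨hjJ, hjn⟩, hji⟩ := hinf.exists_notMem_finite (hstar i)
  obtain ⟨w, hwj, hwy⟩ := hjn
  set c' := c j with hc'
  set r' := r j with hr'
  have hr'ρ : ρ ≤ r' := hJρ j hjJ
  have hr'0 : 0 < r' := lt_of_lt_of_le hρ hr'ρ
  have hcy : ‖c' - y'‖ < r' + ε / 2 := by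
    have h1 : c' - y' = -(w - c') + (w - y') := by abel
    have h2 : ‖w - c'‖ ≤ r' := by
      have : w ∈ closedBall (c j) (r j) := hwj
      rwa [mem_closedBall, dist_eq_norm] at this
    have h3 : ‖w - y'‖ < ε / 2 := by rwa [mem_ball, dist_eq_norm] at hwy
    rw [h1]
    refine lt_of_le_of_lt (norm_add_le _ _) ?_
    rw [norm_neg]
    linarith
  have hac : R + r' < ‖a - c'‖ := by
    have h1 : Disjoint (closedBall a R) (closedBall c' r') := by
      rw [Set.disjoint_iff_inter_eq_empty]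
      by_contra h2
      exact hji (Set.nonempty_iff_ne_empty.2 h2)
    have h2 := (disjoint_closedBall_closedBall_iff hR0.le hr'0.le).1 h1
    rwa [dist_eq_norm] at h2
  have hcb : r' + r₁ < ‖c' - b‖ := by
    have h1 := hJd j hjJ
    have h2 := (disjoint_closedBall_closedBall_iff hr₁.le hr'0.le).1
      (show Disjoint (closedBall b r₁) (closedBall c' r') from h1)
    rw [dist_eq_norm, norm_sub_rev] at h2
    linarith
  obtain ⟨h, hh1, hh2⟩ := exists_dual_vector'' ℝ (a - c')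
  simp only [RCLike.ofReal_real_eq_id, id_eq] at hh2
  obtain ⟨g, hg1, hg2⟩ := exists_dual_vector'' ℝ (c' - b)
  simp only [RCLike.ofReal_real_eq_id, id_eq] at hg2
  have e1 : h (a - c') = h (a - y') - h (c' - y') := by rw [← map_sub]; congr 1; abel
  have e2 : h (c' - y') ≥ -‖c' - y'‖ := (abs_le.1 (abs_le_of_norm_le_one hh1 _)).1
  have e3 : h (a - y') ≤ ‖a - y'‖ := le_of_norm_le_one hh1 _
  have e4 : ‖a - y'‖ ≤ ‖a - y₀‖ + 4 * s := by
    have h1 : a - y' = (a - y₀) - (y' - y₀) := by abel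
    rw [h1]
    refine (norm_sub_le _ _).trans ?_
    linarith
  have hhf : ‖h - f‖ ≤ 1 / 2 := star h hh1 (by linarith)
  have g1 : g (c' - b) = g (c' - y') + g (y' - b) := by rw [← map_add]; congr 1; abel
  have g2 : g (y' - b) ≤ r₁ := by rw [← hy'b]; exact le_of_norm_le_one hg1 _
  have g3 : g (c' - y') ≤ ‖c' - y'‖ := le_of_norm_le_one hg1 _
  have g4 : g (y' - b) = g x + g (y' - y₀) := by rw [hx, ← map_add]; congr 1; abel
  have g5 : g (y' - y₀) ≤ 4 * s := (le_of_norm_le_one hg1 _).trans hy'n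
  have hgf : ‖g - f‖ ≤ 1 / 2 := hS' g hg1 (by nlinarith)
  have hgh : ‖g - h‖ ≤ 1 := by
    have h1 : g - h = (g - f) - (h - f) := by abel
    rw [h1]
    refine (norm_sub_le _ _).trans ?_
    linarith
  have k1 : (g - h) (c' - y') ≤ ‖c' - y'‖ := le_of_norm_le_one hgh _
  rw [sub_apply] at k1
  nlinarith

end StarFin
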